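import Mathlib
import Pool.Agent.U286.LY.LInst
import Pool.Agent.U286.LY.LWidth

/-!
# 3SUM by random word circuits with bounded error

The input is a list of `m` distinct integers between `-m ^ 3` and `m ^ 3` (`IsSet`); the question is
whether one of them is the sum of two others (`HasSum`). The model is the word circuit of the
library (`Pool.Agent.Y631.Wc.WCirc`): the gates hold words (elements of a finite set `Z`), and a
gate computes an ARBITRARY function of at most `κ` items of the list and words of earlier gates. The
items can be read everywhere; `reads`, the number of the wires from items to gates, is counted.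

A random circuit (`Rand`) is a circuit for every point of a finite probability space, a nonuniform
form of the random words of the machine. The answer may be wrong with probability at most `1 / 3`
for every input, which is more than what the problem allows. The number of reads and the width are
bounded on average only. The circuit `C ω` has the width `c` (`WidthLE`) if the graph of its gates
(the items are deleted) has treewidth less than `c`, or can be drawn in the plane with at most `c ^
2` gates and crossings.

**Result.** If the expected number of reads is at most `r m`, then the expected width is at least `m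
/ (2 ^ (110000 r) (κ + 1) b)` for words of `b` bits. So with `O (m)` reads, bounded fan-in and words
of `O (log m)` bits the treewidth is at least `c m / log m`, and a drawing has at least `c m ^ 2 /
log ^ 2 m` gates and crossings, the exponent of the 3SUM hypothesis. If the expected width is at
most `m ^ (1 - ε)`, the expected number of reads is `Ω (ε m log m)`.

**Proof.** The earlier results on word circuits (`TreewidthTimesReads`, `CrossingNumber`,
`LatticeLayouts`) are about circuits which are always correct: they use fooling sets, and a random
circuit is reduced to its worst circuit. With errors a hard distribution is necessary, but the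
circuit is divided into parts only after it is known, and then only `m / C ^ r` pairs of items are
separated. New here (`Pool.Agent.U286.LY.fam_error`, found with Exact Triangle,
`MP_62fbe0_lc.BoundedError`): (i) pairs of places matched by a random shift; (ii) a corruption lemma
(Razborov) for partitions into rectangles on the separated pairs, where the shift, the circuit, the
separated pairs and the fixing of all other items are chosen by weights such that the error on the
separated pairs stays small; (iii) the error `1 / 3` is reduced by the majority of 160 circuits that
are divided separately. The instances here: the item `u` of the first block is the number `7 (3 u +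
a) + 1`, the item `v` of the second block is `7 (K + 3 v + b) + 1`, with letters `a`, `b`, and one
item is `7 (K + 3 s)` for the shift `s`.
-/

set_option autoImplicit false

namespace Pool.Agent.Results.MP_13bec0_lc.BoundedError

open Pool.Agent.Y631.Wc Pool.Agent.U286.LY

/-- (1) Let `C` be a random circuit of fan-in at most `κ`, with words of `b ≥ 1` bits, that decides 3SUM
with an error of at most `1 / 3`, and let `C ω` have the width `c ω`. If the expected number of
reads is at most `r m`, `r ≥ 1`, then `m ≤ 2 ^ (110000 r) (κ + 1) b E c`.

(2) For all `a`, `κ`, `ε > 0` and all large `m`: if such a random circuit has at most `m ^ a` words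
and the expected width is at most `m ^ (1 - ε)`, then the expected number of reads is at least `(ε /
440000) m log₂ m`. -/
theorem result :
    (∀ {m r κ b : ℕ}, 1 ≤ r → 1 ≤ b → ∀ {Z : Type} [Fintype Z], Fintype.card Z ≤ 2 ^ b →
      ∀ {Ω : Type} [Fintype Ω] (p : Ω → ℝ) (C : Ω → WCirc (Fin m) ℤ Z) (c : Ω → ℕ),
      Rand IsSet HasSum κ p C → (∀ ω, WidthLE (C ω) (c ω)) →
      mean p (fun ω => (C ω).reads) ≤ r * m →
      (m : ℝ) ≤ 2 ^ (110000 * r) * ((κ + 1) * b * mean p c)) ∧
    ∀ (a κ : ℕ) (ε : ℝ), 0 < ε → ∃ m₀ : ℕ, ∀ m ≥ m₀, ∀ (Z : Type) [Fintype Z],
      Fintype.card Z ≤ m ^ a → ∀ (Ω : Type) [Fintype Ω] (p : Ω → ℝ)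
      (C : Ω → WCirc (Fin m) ℤ Z) (c : Ω → ℕ), Rand IsSet HasSum κ p C →
      (∀ ω, WidthLE (C ω) (c ω)) → mean p c ≤ (m : ℝ) ^ (1 - ε) →
      ε / 440000 * (m * Real.logb 2 m) ≤ mean p fun ω => (C ω).reads := by
  refine ⟨?_, ?_⟩
  · intro m r κ b hr hb Z _ hZ Ω _ p C c h hc hR
    exact all_width (m₀ := 100) (by norm_num) (fun hm => sum_inst (by omega)) hr hb hZ p C h hR c hc
  · intro a κ ε hε
    obtain ⟨n₀, hn₀⟩ := all_reads_width (X := ℤ) a κ ε hε
    refine ⟨max n₀ 100, fun m hm Z _ hZ Ω _ p C c h hc hT => ?_⟩
    have hm1 := (le_max_left _ _).trans hm
    have hm2 := (le_max_right _ _).trans hm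
    exact hn₀ m hm1 _ _ (sum_inst (by omega)) Z hZ Ω p C c h hc hT

end Pool.Agent.Results.MP_13bec0_lc.BoundedError
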