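import Mathlib
import Pool.Agent.U514.MU.W
import Pool.Agent.Y631.WcSum

/-!
# 3SUM: fast circuits contain every graph as a minor

The input is a list of `m` different integers between `-m³` and `m³`; we ask if one of them is the
sum of two others.
The model is the word circuit of the library (`Pool.Agent.Y631.Wc.WCirc`): the gates hold words
(elements of a finite set `Z`), and a gate computes an ARBITRARY function (or, in part (1), relation)
of at most `κ` items of the list and words of earlier gates; `C.reads` is the number of wires from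
items of the list to gates. The graph of the gates (`gateGraph`) has the gates as vertices and the
wires between gates as edges; the items, and the wires from them, are deleted.

`HasMinor G H d`: there are pairwise disjoint sets of vertices of `G`, one for each vertex of `H`,
each with a centre from which it can be reached by walks of length at most `d` inside of the set,
and an edge of `G` between the sets of adjacent vertices of `H`. `Universal G M d`: this holds for
EVERY graph `H` with at most `M` vertices and at most `M` edges.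

**Result.** A circuit with `m ^ (1 + η)` gates and at most `c_ε m log m` reads, with words of
`O (log m)` bits and bounded fan-in, contains every graph with at most `m ^ (1 - η - ε)` vertices and
edges as a minor, with branch sets of radius `m ^ (η + ε)`. In particular a circuit with
`m ^ (1 + o(1))` gates contains EVERY graph with at most `m ^ (1 - ε)` edges as a minor with branch
sets of radius `m ^ ε`; as the graph of the gates has not more than `m ^ (1 + o(1))` edges this is
best possible up to `m ^ ε`. And circuits whose graphs of gates do not contain one fixed graph as a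
minor, such as all graphs of bounded genus, need `m ^ (2 - ε)` gates (or
`c_ε m log m` reads).

**Proof.** For every graph `H`, a graph `G` with at most `2 ^ t` vertices has balanced separators of
`|U| / ℓ + |V(H)| + 4 ℓ t |E(H)|` vertices of all its sets `U` of vertices, unless it contains `H` as a
minor with branch sets of radius at most `2 ℓ t` (`Pool.Agent.U514.MU.exists_sep`; for complete graphs
`H` this is the theorem of Plotkin, Rao and Smith, 1994; here the branch sets are joined by short
paths only for the edges of `H`, so that the bound is linear in `|E(H)|` for all `H`). So a graph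
with `s` vertices which is not universal for `M` edges with radius `√(s log s / M)` has treewidth
`O (√(M s log s))` (`Pool.Agent.U514.MU.treewidth_of_not_universal`). The trade-off between treewidth
and reads is the one of the starting result `MP_13bec0_lc.TreewidthTimesReads`.
-/

set_option autoImplicit false

namespace Pool.Agent.Results.MP_13bec0_lc.MinorUniversality

open Pool.Agent.Y631.Wc Pool.Agent.U514.MU
open Pool.Agent.U514.PD.W (gateGraph)

/-- Let `C` be a word circuit for lists of `m` integers, whose gates have fan-in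
at most `κ`, with `s` gates and at most `r m` reads, and let `M ≥ 1` and
`4 (⌊log₂ s⌋ + 1) s ≤ M d²`.

(1) If `C` (nondeterministic, words of `b` bits) accepts exactly the sets without solution of `x + y = z` and
`2 ^ (48 r + 46) r⁴ (κ + 1)² b² M (⌊log₂ s⌋ + 1) s < m²` then the graph of the gates contains every
graph `H` with at most `M` vertices and at most `M` edges as a minor with branch sets of radius at
most `d`.

(2) The same holds if the words have `b log₂ m` bits, `C` has at most one accepting computation for
each input (for instance the gates compute functions), and `C` decides if there is a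
solution.

(3) For all `c`, `κ`, `η ≥ 0` and `ε > 0` with `η + ε ≤ 1` and all large `m`: if a circuit as in (2)
of fan-in `κ`, whose gates have at most `m ^ c` values, with at most `m ^ (1 + η)` gates and fewer
than `(ε / 180) m log₂ m` reads, decides the question, then the graph of its gates contains every
graph `H` with at most `m ^ (1 - η - ε)` vertices and at most `m ^ (1 - η - ε)` edges as a minor with
branch sets of radius at most `m ^ (η + ε)`. -/
theorem result :
    (∀ {r κ m b M d : ℕ}, 1 ≤ r → 1 ≤ b → 1 ≤ M → ∀ {Z : Type} [Fintype Z],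
      Fintype.card Z ≤ 2 ^ b →
      ∀ C : WCirc (Fin m) ℤ Z, C.FanIn κ → C.reads ≤ r * m →
      (∀ x, IsSet x → (C.Accepts x ↔ ¬ HasSum x)) →
      4 * (Nat.log 2 C.size + 1) * C.size ≤ M * d ^ 2 →
      2 ^ (48 * r + 46) * (r ^ 4 * (κ + 1) ^ 2 * b ^ 2 *
        (M * (Nat.log 2 C.size + 1) * C.size)) < m ^ 2 →
      Universal (gateGraph C) M d) ∧
    (∀ {r κ m b M d : ℕ}, 1 ≤ r → 1 ≤ b → 1 ≤ M → ∀ {Z : Type} [Fintype Z],
      Fintype.card Z ≤ m ^ b →
      ∀ C : WCirc (Fin m) ℤ Z, C.FanIn κ → C.reads ≤ r * m → C.Unambiguous →
      ((∀ x, IsSet x → (C.Accepts x ↔ HasSum x)) ∨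
        (∀ x, IsSet x → (C.Accepts x ↔ ¬ HasSum x))) →
      4 * (Nat.log 2 C.size + 1) * C.size ≤ M * d ^ 2 →
      2 ^ (48 * r + 46) * (r ^ 4 * (κ + 1) ^ 2 * b ^ 2 *
        (M * (Nat.log 2 C.size + 1) * C.size)) < m ^ 2 →
      Universal (gateGraph C) M d) ∧
    ∀ (c κ : ℕ) (η ε : ℝ), 0 ≤ η → 0 < ε → η + ε ≤ 1 → ∃ m₀ : ℕ, ∀ m ≥ m₀, ∀ (Z : Type)
      [Fintype Z], Fintype.card Z ≤ m ^ c → ∀ C : WCirc (Fin m) ℤ Z, C.FanIn κ →
      C.Unambiguous →
      ((∀ x, IsSet x → (C.Accepts x ↔ HasSum x)) ∨
        (∀ x, IsSet x → (C.Accepts x ↔ ¬ HasSum x))) →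
      (C.size : ℝ) ≤ (m : ℝ) ^ (1 + η) → (C.reads : ℝ) < ε / 180 * (m * Real.logb 2 m) →
      ∀ (W : Type) [Fintype W] (H : SimpleGraph W),
        (Fintype.card W : ℝ) ≤ (m : ℝ) ^ (1 - η - ε) →
        (H.edgeSet.ncard : ℝ) ≤ (m : ℝ) ^ (1 - η - ε) →
        HasMinor (gateGraph C) H ⌊(m : ℝ) ^ (η + ε)⌋₊ := by
  have hsmall : ∀ {Z : Type} {m : ℕ} (C : WCirc (Fin m) ℤ Z) {r κ b M : ℕ}, 1 ≤ r → 1 ≤ b →
      1 ≤ M → 2 ^ (48 * r + 46) * (r ^ 4 * (κ + 1) ^ 2 * b ^ 2 *
        (M * (Nat.log 2 C.size + 1) * C.size)) < m ^ 2 → 2 ≤ m := by
    intro Z m C r κ b M hr hb hM h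
    have hs : 1 ≤ C.size := by
      have := C.out.2
      omega
    by_contra hm
    have h1 : m ^ 2 ≤ 1 := by
      have : m < 2 := by omega
      interval_cases m <;> norm_num
    have h2 : 0 < 2 ^ (48 * r + 46) * (r ^ 4 * (κ + 1) ^ 2 * b ^ 2 *
        (M * (Nat.log 2 C.size + 1) * C.size)) := by
      positivity
    omega
  refine ⟨?_, ?_, ?_⟩
  · intro r κ m b M d hr hb hM Z _ hZ C hκ hR hC hd hbig
    have hm := hsmall C hr hb hM hbig
    by_contra hno
    have h1 := w_quadratic (m := m) (κ := κ) C hr hb le_rfl hM hd hno (fun θ hθ =>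
      ((sum_bounds (q := 2)  hr le_rfl (by
        calc 2 = 2 ^ 1 := (pow_one 2).symm
          _ ≤ 2 ^ b := Nat.pow_le_pow_right (by norm_num) hb) (by omega) hZ C hκ hθ hR).1 hC).trans
        (Nat.le_succ _))
    omega
  · intro r κ m b M d hr hb hM Z _ hZ C hκ hR hU hC hd hbig
    have hm := hsmall C hr hb hM hbig
    by_contra hno
    have h1 := w_quadratic (m := m) (κ := κ) C hr hb hm hM hd hno (fun θ hθ => by
      have h3 := sum_bounds (q := m)  hr (by omega) (by
        calc m = m ^ 1 := (pow_one m).symm
          _ ≤ m ^ b := Nat.pow_le_pow_right (by omega) hb) le_rfl hZ C hκ hθ hR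
      rcases hC with hC | hC
      · exact h3.2.2 hU hC
      · exact (h3.2.1 hU hC).trans (Nat.le_succ _))
    omega
  · intro c κ η ε hη hε hηε
    obtain ⟨m₁, hm₁⟩ := sum_superlinear c κ (ε / 6) (by positivity) (by linarith)
    obtain ⟨m₂, hm₂⟩ := (w_minors η ε hη hε hηε).exists_forall_of_atTop
    refine ⟨max m₁ m₂, fun m hm Z _ hZ C hκ hU hC hs hR => ?_⟩
    refine hm₂ m ((le_max_right _ _).trans hm) C hs (fun θ hθ hθ2 => ?_)
    have h1 := hm₁ m ((le_max_left _ _).trans hm) Z hZ C θ hκ hθ hθ2 hU hC
    have h2 : ε / 6 / 30 * (m * Real.logb 2 m) = ε / 180 * (m * Real.logb 2 m) := by ring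
    rw [h2] at h1
    exact absurd hR (not_lt.2 h1)

end Pool.Agent.Results.MP_13bec0_lc.MinorUniversality
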